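import Mathlib

set_option autoImplicit false

/-!
Project QS: folding the simplex `q₁ + q₂ + q₃ + q₄ = 2h`.
-/

namespace Pool.Agent.QS

open MeasureTheory Set

/-- Fubini on a set fibred in rectangles over an interval -/
lemma box {A : ℝ} (hA : 0 ≤ A) {β γ : ℝ → ℝ} (hβ : Continuous β) (hγ : Continuous γ)
    (hβ0 : ∀ a ∈ Ioo 0 A, 0 ≤ β a) (hγ0 : ∀ a ∈ Ioo 0 A, 0 ≤ γ a) {G : ℝ × ℝ × ℝ → ℝ}
    (hG : Continuous G) :
    ∫ a in (0 : ℝ)..A, ∫ b in (0 : ℝ)..β a, ∫ c in (0 : ℝ)..γ a, G (a, b, c) =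
      ∫ p in {p : ℝ × ℝ × ℝ | (0 < p.1 ∧ p.1 < A) ∧ (0 < p.2.1 ∧ p.2.1 < β p.1) ∧
        (0 < p.2.2 ∧ p.2.2 < γ p.1)}, G p := by
  set B : Set (ℝ × ℝ × ℝ) := {p : ℝ × ℝ × ℝ | (0 < p.1 ∧ p.1 < A) ∧
    (0 < p.2.1 ∧ p.2.1 < β p.1) ∧ (0 < p.2.2 ∧ p.2.2 < γ p.1)} with hB
  have hBm : MeasurableSet B := by
    apply IsOpen.measurableSet
    refine IsOpen.inter (IsOpen.inter ?_ ?_) (IsOpen.inter (IsOpen.inter ?_ ?_)
      (IsOpen.inter ?_ ?_))
    · exact isOpen_lt continuous_const continuous_fst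
    · exact isOpen_lt continuous_fst continuous_const
    · exact isOpen_lt continuous_const (continuous_fst.comp continuous_snd)
    · exact isOpen_lt (continuous_fst.comp continuous_snd) (hβ.comp continuous_fst)
    · exact isOpen_lt continuous_const (continuous_snd.comp continuous_snd)
    · exact isOpen_lt (continuous_snd.comp continuous_snd) (hγ.comp continuous_fst)
  obtain ⟨M, hM⟩ := (isCompact_Icc (a := (0 : ℝ)) (b := A)).exists_bound_of_continuousOn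
    hβ.continuousOn
  obtain ⟨M', hM'⟩ := (isCompact_Icc (a := (0 : ℝ)) (b := A)).exists_bound_of_continuousOn
    hγ.continuousOn
  have hK : IsCompact (Icc (0 : ℝ) A ×ˢ Icc (0 : ℝ) M ×ˢ Icc (0 : ℝ) M') :=
    isCompact_Icc.prod (isCompact_Icc.prod isCompact_Icc)
  have hint : IntegrableOn G B := by
    refine (hG.continuousOn.integrableOn_compact hK).mono_set ?_
    rintro ⟨a, b, c⟩ ⟨⟨h1, h2⟩, ⟨h3, h4⟩, h5, h6⟩
    simp only at h1 h2 h3 h4 h5 h6
    have i1 := hM a ⟨h1.le, h2.le⟩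
    have i2 := hM' a ⟨h1.le, h2.le⟩
    rw [Real.norm_eq_abs] at i1 i2
    have j1 := le_abs_self (β a)
    have j2 := le_abs_self (γ a)
    exact ⟨⟨h1.le, h2.le⟩, ⟨h3.le, by simp only; linarith⟩, ⟨h5.le, by simp only; linarith⟩⟩
  rw [intervalIntegral.integral_of_le hA, integral_Ioc_eq_integral_Ioo,
    ← integral_indicator measurableSet_Ioo, ← integral_indicator hBm, Measure.volume_eq_prod,
    integral_prod _ ((integrable_indicator_iff hBm).mpr hint)]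
  congr 1
  funext a
  by_cases ha : a ∈ Ioo 0 A
  · have e : (fun q : ℝ × ℝ => B.indicator G (a, q)) =
        (Ioo 0 (β a) ×ˢ Ioo 0 (γ a)).indicator (fun q => G (a, q)) := by
      funext q
      by_cases hq : q ∈ Ioo 0 (β a) ×ˢ Ioo 0 (γ a)
      · rw [indicator_of_mem hq, indicator_of_mem]
        exact ⟨ha, ⟨hq.1.1, hq.1.2⟩, ⟨hq.2.1, hq.2.2⟩⟩
      · rw [indicator_of_notMem hq, indicator_of_notMem]
        rintro ⟨-, h1, h2⟩
        exact hq ⟨h1, h2⟩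
    have hGa : Continuous fun q : ℝ × ℝ => G (a, q) :=
      hG.comp (continuous_const.prodMk continuous_id)
    rw [indicator_of_mem ha, e, integral_indicator (measurableSet_Ioo.prod measurableSet_Ioo),
      Measure.volume_eq_prod, setIntegral_prod,
      intervalIntegral.integral_of_le (hβ0 a ha), integral_Ioc_eq_integral_Ioo]
    · refine setIntegral_congr_fun measurableSet_Ioo fun b _ => ?_
      rw [intervalIntegral.integral_of_le (hγ0 a ha), integral_Ioc_eq_integral_Ioo]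
    · refine (hGa.continuousOn.integrableOn_compact
        (isCompact_Icc.prod isCompact_Icc)).mono_set
        (prod_mono Ioo_subset_Icc_self Ioo_subset_Icc_self)
  · rw [indicator_of_notMem ha]
    symm
    have e : (fun q : ℝ × ℝ => B.indicator G (a, q)) = fun _ => 0 := by
      funext q
      rw [indicator_of_notMem]
      rintro ⟨h1, -, -⟩
      exact ha h1
    rw [e, integral_zero]

/-- change of variables -/
lemma transfer {f : ℝ × ℝ × ℝ → ℝ × ℝ × ℝ} (hf : MeasurePreserving f volume volume)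
    {s : Set (ℝ × ℝ × ℝ)} (hs : MeasurableSet s) {G : ℝ × ℝ × ℝ → ℝ} (hG : Continuous G) :
    ∫ p in f ⁻¹' s, G (f p) = ∫ p in s, G p := by
  have h := setIntegral_map (μ := volume) (g := f) hs hG.aestronglyMeasurable hf.aemeasurable
  rw [hf.map_eq] at h
  exact h.symm

lemma shear {φ : ℝ × ℝ → ℝ} (hφ : Continuous φ) :
    MeasurePreserving (fun q : (ℝ × ℝ) × ℝ => (q.1, φ q.1 - q.2)) volume volume := by
  refine (MeasurePreserving.id volume).skew_product (g := fun a b => φ a - b) ?_ ?_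
  · exact ((hφ.comp continuous_fst).sub continuous_snd).measurable
  · exact Filter.Eventually.of_forall fun a => (Measure.measurePreserving_sub_left volume (φ a)).map_eq

lemma shear' {φ : ℝ × ℝ → ℝ} (hφ : Continuous φ) :
    MeasurePreserving (fun q : (ℝ × ℝ) × ℝ => (q.1, q.2 - φ q.1)) volume volume := by
  refine (MeasurePreserving.id volume).skew_product (g := fun a b => b - φ a) ?_ ?_
  · exact (continuous_snd.sub (hφ.comp continuous_fst)).measurable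
  · exact Filter.Eventually.of_forall fun a => (measurePreserving_sub_right volume (φ a)).map_eq

lemma mswap1 : MeasurePreserving (Prod.swap : ℝ × (ℝ × ℝ) → (ℝ × ℝ) × ℝ) volume volume :=
  Measure.measurePreserving_swap

lemma mswap2 : MeasurePreserving (Prod.swap : (ℝ × ℝ) × ℝ → ℝ × (ℝ × ℝ)) volume volume :=
  Measure.measurePreserving_swap

lemma massoc : MeasurePreserving (MeasurableEquiv.prodAssoc : (ℝ × ℝ) × ℝ ≃ᵐ ℝ × (ℝ × ℝ))
    volume volume := volume_preserving_prodAssoc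

lemma massoc' : MeasurePreserving
    ((MeasurableEquiv.prodAssoc : (ℝ × ℝ) × ℝ ≃ᵐ ℝ × (ℝ × ℝ)).symm) volume volume :=
  MeasurePreserving.symm _ massoc

lemma m1 : MeasurePreserving (fun p : ℝ × ℝ × ℝ => ((p.2.1, p.2.2, p.1 - p.2.1) : ℝ × ℝ × ℝ))
    volume volume :=
  massoc.comp ((shear' (φ := fun q => q.1) continuous_fst).comp mswap1)

lemma m2 (h : ℝ) : MeasurePreserving
    (fun p : ℝ × ℝ × ℝ => ((p.2.1, p.2.2, 2 * h - p.2.1 - p.2.2 - p.1) : ℝ × ℝ × ℝ))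
    volume volume :=
  massoc.comp ((shear (φ := fun q => 2 * h - q.1 - q.2)
    ((continuous_const.sub continuous_fst).sub continuous_snd)).comp mswap1)

lemma m3 (h : ℝ) : MeasurePreserving
    (fun p : ℝ × ℝ × ℝ => ((2 * h - p.2.1 - p.1 - p.2.2, p.1, p.2.1) : ℝ × ℝ × ℝ))
    volume volume :=
  mswap2.comp ((shear (φ := fun q => 2 * h - q.2 - q.1)
    ((continuous_const.sub continuous_snd).sub continuous_fst)).comp massoc')

lemma ms (h : ℝ) : MeasurePreserving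
    (fun p : ℝ × ℝ × ℝ => ((p.1, p.2.1, 2 * h - p.1 - p.2.1 - p.2.2) : ℝ × ℝ × ℝ))
    volume volume :=
  massoc.comp ((shear (φ := fun q => 2 * h - q.1 - q.2)
    ((continuous_const.sub continuous_fst).sub continuous_snd)).comp massoc')

lemma mt : MeasurePreserving (fun p : ℝ × ℝ × ℝ => ((p.2.1, p.1, p.2.2) : ℝ × ℝ × ℝ))
    volume volume :=
  massoc.comp (((Measure.measurePreserving_swap (μ := (volume : Measure ℝ))
    (ν := (volume : Measure ℝ))).prod (MeasurePreserving.id (volume : Measure ℝ))).comp massoc')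

lemma null1 (h : ℝ) : volume {p : ℝ × ℝ × ℝ | p.2.1 + p.2.2 = h} = 0 := by
  have hm : MeasurableSet {p : ℝ × ℝ × ℝ | p.2.1 + p.2.2 = h} :=
    (isClosed_eq (by fun_prop : Continuous fun p : ℝ × ℝ × ℝ => p.2.1 + p.2.2)
      continuous_const).measurableSet
  rw [Measure.volume_eq_prod, Measure.measure_prod_null hm]
  refine Filter.Eventually.of_forall fun x => ?_
  show volume {q : ℝ × ℝ | q.1 + q.2 = h} = 0
  have hm2 : MeasurableSet {q : ℝ × ℝ | q.1 + q.2 = h} :=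
    (isClosed_eq (by fun_prop : Continuous fun q : ℝ × ℝ => q.1 + q.2)
      continuous_const).measurableSet
  rw [Measure.volume_eq_prod, Measure.measure_prod_null hm2]
  refine Filter.Eventually.of_forall fun y => ?_
  have : Prod.mk y ⁻¹' {q : ℝ × ℝ | q.1 + q.2 = h} = {h - y} := by
    ext z
    simp only [mem_preimage, mem_ofPred_eq, mem_singleton_iff]
    constructor <;> intro e <;> linarith
  show volume (Prod.mk y ⁻¹' _) = 0
  rw [this]
  exact Real.volume_singleton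

lemma null2 (h : ℝ) : volume {p : ℝ × ℝ × ℝ | p.1 + p.2.2 = h} = 0 := by
  have hm : MeasurableSet {p : ℝ × ℝ × ℝ | p.1 + p.2.2 = h} :=
    (isClosed_eq (by fun_prop : Continuous fun p : ℝ × ℝ × ℝ => p.1 + p.2.2)
      continuous_const).measurableSet
  rw [Measure.volume_eq_prod, Measure.measure_prod_null hm]
  refine Filter.Eventually.of_forall fun x => ?_
  show volume {q : ℝ × ℝ | x + q.2 = h} = 0
  have hm2 : MeasurableSet {q : ℝ × ℝ | x + q.2 = h} :=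
    (isClosed_eq (by fun_prop : Continuous fun q : ℝ × ℝ => x + q.2)
      continuous_const).measurableSet
  rw [Measure.volume_eq_prod, Measure.measure_prod_null hm2]
  refine Filter.Eventually.of_forall fun y => ?_
  have : Prod.mk y ⁻¹' {q : ℝ × ℝ | x + q.2 = h} = {h - x} := by
    ext z
    simp only [mem_preimage, mem_ofPred_eq, mem_singleton_iff]
    constructor <;> intro e <;> linarith
  show volume (Prod.mk y ⁻¹' _) = 0
  rw [this]
  exact Real.volume_singleton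

/-- **Folding the simplex.** -/
theorem simplex_fold (J : ℝ → ℝ → ℝ → ℝ → ℝ)
    (hJ : Continuous fun p : ℝ × ℝ × ℝ × ℝ => J p.1 p.2.1 p.2.2.1 p.2.2.2)
    (h12 : ∀ q₁ q₂ q₃ q₄, J q₂ q₁ q₃ q₄ = J q₁ q₂ q₃ q₄)
    (h34 : ∀ q₁ q₂ q₃ q₄, J q₁ q₂ q₄ q₃ = J q₁ q₂ q₃ q₄) {h : ℝ} (hh : 0 ≤ h) :
    ∫ s in (0 : ℝ)..(2 * h), ∫ q₁ in (0 : ℝ)..s, ∫ q₂ in (0 : ℝ)..(2 * h - s),
        J q₁ q₂ (s - q₁) (2 * h - s - q₂) =
      2 * (∫ v in (0 : ℝ)..h, ∫ q₁ in (0 : ℝ)..(h - v), ∫ q₂ in (0 : ℝ)..(h - v),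
        J q₁ q₂ (2 * h - q₁ - q₂ - v) v) +
      2 * ∫ u in (0 : ℝ)..h, ∫ q₃ in (0 : ℝ)..(h - u), ∫ q₄ in (0 : ℝ)..(h - u),
        J (2 * h - q₃ - q₄ - u) u q₃ q₄ := by
  set G : ℝ × ℝ × ℝ → ℝ := fun p => J p.1 p.2.1 p.2.2 (2 * h - p.1 - p.2.1 - p.2.2) with hG
  have hGc : Continuous G := hJ.comp (by fun_prop : Continuous fun p : ℝ × ℝ × ℝ =>
    ((p.1, p.2.1, p.2.2, 2 * h - p.1 - p.2.1 - p.2.2) : ℝ × ℝ × ℝ × ℝ))
  set S : Set (ℝ × ℝ × ℝ) := {p | 0 < p.1 ∧ 0 < p.2.1 ∧ 0 < p.2.2 ∧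
    p.1 + p.2.1 + p.2.2 < 2 * h} with hS
  set A1 : Set (ℝ × ℝ × ℝ) := {p | h < p.2.1 + p.2.2 ∧ h < p.1 + p.2.2} with hA1
  set A2 : Set (ℝ × ℝ × ℝ) := {p | p.2.1 + p.2.2 < h ∧ p.1 + p.2.2 < h} with hA2
  set A3 : Set (ℝ × ℝ × ℝ) := {p | p.2.1 + p.2.2 < h ∧ h < p.1 + p.2.2} with hA3
  set A4 : Set (ℝ × ℝ × ℝ) := {p | h < p.2.1 + p.2.2 ∧ p.1 + p.2.2 < h} with hA4
  have c12 : Continuous fun p : ℝ × ℝ × ℝ => p.2.1 + p.2.2 := by fun_prop
  have c02 : Continuous fun p : ℝ × ℝ × ℝ => p.1 + p.2.2 := by fun_prop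
  have lt1 : IsOpen {p : ℝ × ℝ × ℝ | p.2.1 + p.2.2 < h} := isOpen_lt c12 continuous_const
  have gt1 : IsOpen {p : ℝ × ℝ × ℝ | h < p.2.1 + p.2.2} := isOpen_lt continuous_const c12
  have lt2 : IsOpen {p : ℝ × ℝ × ℝ | p.1 + p.2.2 < h} := isOpen_lt c02 continuous_const
  have gt2 : IsOpen {p : ℝ × ℝ × ℝ | h < p.1 + p.2.2} := isOpen_lt continuous_const c02
  have mS : MeasurableSet S := by
    apply IsOpen.measurableSet
    refine IsOpen.inter ?_ (IsOpen.inter ?_ (IsOpen.inter ?_ ?_))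
    · exact isOpen_lt continuous_const continuous_fst
    · exact isOpen_lt continuous_const (continuous_fst.comp continuous_snd)
    · exact isOpen_lt continuous_const (continuous_snd.comp continuous_snd)
    · exact isOpen_lt (by fun_prop : Continuous fun p : ℝ × ℝ × ℝ => p.1 + p.2.1 + p.2.2)
        continuous_const
  have mA1 : MeasurableSet A1 := (gt1.inter gt2).measurableSet
  have mA2 : MeasurableSet A2 := (lt1.inter lt2).measurableSet
  have mA3 : MeasurableSet A3 := (lt1.inter gt2).measurableSet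
  have mA4 : MeasurableSet A4 := (gt1.inter lt2).measurableSet
  have hint : IntegrableOn G S := by
    refine (hGc.continuousOn.integrableOn_compact (isCompact_Icc (a := (0 : ℝ)) (b := 2 * h)
      |>.prod ((isCompact_Icc (a := (0 : ℝ)) (b := 2 * h)).prod
        (isCompact_Icc (a := (0 : ℝ)) (b := 2 * h))))).mono_set ?_
    rintro ⟨x, y, z⟩ ⟨h1, h2, h3, h4⟩
    simp only at h1 h2 h3 h4
    exact ⟨⟨h1.le, by simp only; linarith⟩, ⟨h2.le, by simp only; linarith⟩,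
      ⟨h3.le, by simp only; linarith⟩⟩
  -- the left side
  have L : ∫ s in (0 : ℝ)..(2 * h), ∫ q₁ in (0 : ℝ)..s, ∫ q₂ in (0 : ℝ)..(2 * h - s),
      J q₁ q₂ (s - q₁) (2 * h - s - q₂) = ∫ p in S, G p := by
    have e := box (A := 2 * h) (by linarith) (β := fun s => s) (γ := fun s => 2 * h - s)
      continuous_id (by fun_prop) (fun a ha => ha.1.le) (fun a ha => by
        have := ha.2
        linarith) (G := fun p => G (p.2.1, p.2.2, p.1 - p.2.1)) (by fun_prop)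
    have e2 := transfer m1 mS hGc
    rw [← e2]
    have e3 : (fun p : ℝ × ℝ × ℝ => ((p.2.1, p.2.2, p.1 - p.2.1) : ℝ × ℝ × ℝ)) ⁻¹' S =
        {p : ℝ × ℝ × ℝ | (0 < p.1 ∧ p.1 < 2 * h) ∧ (0 < p.2.1 ∧ p.2.1 < p.1) ∧
          (0 < p.2.2 ∧ p.2.2 < 2 * h - p.1)} := by
      ext ⟨s, a, b⟩
      simp only [hS, mem_preimage, mem_ofPred_eq]
      constructor
      · rintro ⟨h1, h2, h3, h4⟩
        refine ⟨⟨?_, ?_⟩, ⟨?_, ?_⟩, ?_, ?_⟩ <;> linarith
      · rintro ⟨⟨h1, h2⟩, ⟨h3, h4⟩, h5, h6⟩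
        refine ⟨?_, ?_, ?_, ?_⟩ <;> linarith
    rw [e3, ← e]
    refine intervalIntegral.integral_congr fun s _ => ?_
    refine intervalIntegral.integral_congr fun a _ => ?_
    refine intervalIntegral.integral_congr fun b _ => ?_
    simp only [hG]
    congr 1
    ring
  -- the first part
  have R1 : ∫ v in (0 : ℝ)..h, ∫ q₁ in (0 : ℝ)..(h - v), ∫ q₂ in (0 : ℝ)..(h - v),
      J q₁ q₂ (2 * h - q₁ - q₂ - v) v = ∫ p in S ∩ A1, G p := by
    have e := box (A := h) hh (β := fun s => h - s) (γ := fun s => h - s)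
      (by fun_prop) (by fun_prop) (fun a ha => by have := ha.2; linarith) (fun a ha => by
        have := ha.2
        linarith) (G := fun p => G (p.2.1, p.2.2, 2 * h - p.2.1 - p.2.2 - p.1)) (by fun_prop)
    have e2 := transfer (m2 h) (mS.inter mA1) hGc
    rw [← e2]
    have e3 : (fun p : ℝ × ℝ × ℝ =>
        ((p.2.1, p.2.2, 2 * h - p.2.1 - p.2.2 - p.1) : ℝ × ℝ × ℝ)) ⁻¹' (S ∩ A1) =
        {p : ℝ × ℝ × ℝ | (0 < p.1 ∧ p.1 < h) ∧ (0 < p.2.1 ∧ p.2.1 < h - p.1) ∧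
          (0 < p.2.2 ∧ p.2.2 < h - p.1)} := by
      ext ⟨s, a, b⟩
      simp only [hS, hA1, mem_preimage, mem_inter_iff, mem_ofPred_eq]
      constructor
      · rintro ⟨⟨h1, h2, h3, h4⟩, h5, h6⟩
        refine ⟨⟨?_, ?_⟩, ⟨?_, ?_⟩, ?_, ?_⟩ <;> linarith
      · rintro ⟨⟨h1, h2⟩, ⟨h3, h4⟩, h5, h6⟩
        refine ⟨⟨?_, ?_, ?_, ?_⟩, ?_, ?_⟩ <;> linarith
    rw [e3, ← e]
    refine intervalIntegral.integral_congr fun s _ => ?_
    refine intervalIntegral.integral_congr fun a _ => ?_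
    refine intervalIntegral.integral_congr fun b _ => ?_
    simp only [hG]
    congr 1
    ring
  -- the second part
  have R2 : ∫ u in (0 : ℝ)..h, ∫ q₃ in (0 : ℝ)..(h - u), ∫ q₄ in (0 : ℝ)..(h - u),
      J (2 * h - q₃ - q₄ - u) u q₃ q₄ = ∫ p in S ∩ A3, G p := by
    have e := box (A := h) hh (β := fun s => h - s) (γ := fun s => h - s)
      (by fun_prop) (by fun_prop) (fun a ha => by have := ha.2; linarith) (fun a ha => by
        have := ha.2
        linarith) (G := fun p => G (2 * h - p.2.1 - p.1 - p.2.2, p.1, p.2.1)) (by fun_prop)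
    have e2 := transfer (m3 h) (mS.inter mA3) hGc
    rw [← e2]
    have e3 : (fun p : ℝ × ℝ × ℝ =>
        ((2 * h - p.2.1 - p.1 - p.2.2, p.1, p.2.1) : ℝ × ℝ × ℝ)) ⁻¹' (S ∩ A3) =
        {p : ℝ × ℝ × ℝ | (0 < p.1 ∧ p.1 < h) ∧ (0 < p.2.1 ∧ p.2.1 < h - p.1) ∧
          (0 < p.2.2 ∧ p.2.2 < h - p.1)} := by
      ext ⟨s, a, b⟩
      simp only [hS, hA3, mem_preimage, mem_inter_iff, mem_ofPred_eq]
      constructor
      · rintro ⟨⟨h1, h2, h3, h4⟩, h5, h6⟩
        refine ⟨⟨?_, ?_⟩, ⟨?_, ?_⟩, ?_, ?_⟩ <;> linarith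
      · rintro ⟨⟨h1, h2⟩, ⟨h3, h4⟩, h5, h6⟩
        refine ⟨⟨?_, ?_, ?_, ?_⟩, ?_, ?_⟩ <;> linarith
    rw [e3, ← e]
    refine intervalIntegral.integral_congr fun s _ => ?_
    refine intervalIntegral.integral_congr fun a _ => ?_
    refine intervalIntegral.integral_congr fun b _ => ?_
    simp only [hG]
    congr 1 <;> ring
  -- the symmetries
  have E2 : ∫ p in S ∩ A2, G p = ∫ p in S ∩ A1, G p := by
    rw [← transfer (ms h) (mS.inter mA1) hGc]
    have e3 : (fun p : ℝ × ℝ × ℝ =>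
        ((p.1, p.2.1, 2 * h - p.1 - p.2.1 - p.2.2) : ℝ × ℝ × ℝ)) ⁻¹' (S ∩ A1) = S ∩ A2 := by
      ext ⟨x, y, z⟩
      simp only [hS, hA1, hA2, mem_preimage, mem_inter_iff, mem_ofPred_eq]
      constructor
      · rintro ⟨⟨h1, h2, h3, h4⟩, h5, h6⟩
        refine ⟨⟨?_, ?_, ?_, ?_⟩, ?_, ?_⟩ <;> linarith
      · rintro ⟨⟨h1, h2, h3, h4⟩, h5, h6⟩
        refine ⟨⟨?_, ?_, ?_, ?_⟩, ?_, ?_⟩ <;> linarith
    rw [e3]
    refine setIntegral_congr_fun (mS.inter mA2) fun p _ => ?_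
    simp only [hG]
    rw [h34]
    congr 1
    ring
  have E4 : ∫ p in S ∩ A4, G p = ∫ p in S ∩ A3, G p := by
    rw [← transfer mt (mS.inter mA3) hGc]
    have e3 : (fun p : ℝ × ℝ × ℝ => ((p.2.1, p.1, p.2.2) : ℝ × ℝ × ℝ)) ⁻¹' (S ∩ A3) =
        S ∩ A4 := by
      ext ⟨x, y, z⟩
      simp only [hS, hA3, hA4, mem_preimage, mem_inter_iff, mem_ofPred_eq]
      constructor
      · rintro ⟨⟨h1, h2, h3, h4⟩, h5, h6⟩
        refine ⟨⟨?_, ?_, ?_, ?_⟩, ?_, ?_⟩ <;> linarith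
      · rintro ⟨⟨h1, h2, h3, h4⟩, h5, h6⟩
        refine ⟨⟨?_, ?_, ?_, ?_⟩, ?_, ?_⟩ <;> linarith
    rw [e3]
    refine setIntegral_congr_fun (mS.inter mA4) fun p _ => ?_
    simp only [hG]
    rw [h12]
    congr 1
    ring
  -- the decomposition
  have hD : S =ᵐ[volume] ((S ∩ A1 ∪ S ∩ A2) ∪ (S ∩ A3 ∪ S ∩ A4) : Set (ℝ × ℝ × ℝ)) := by
    have n1 : ∀ᵐ p : ℝ × ℝ × ℝ ∂volume, ¬ (p.2.1 + p.2.2 = h) := by
      rw [ae_iff]
      simp only [not_not]
      exact null1 h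
    have n2 : ∀ᵐ p : ℝ × ℝ × ℝ ∂volume, ¬ (p.1 + p.2.2 = h) := by
      rw [ae_iff]
      simp only [not_not]
      exact null2 h
    filter_upwards [n1, n2] with p hp1 hp2
    refine propext ?_
    constructor
    · intro hp
      have hp' : p ∈ S := hp
      rcases lt_or_gt_of_ne hp1 with i1 | i1 <;> rcases lt_or_gt_of_ne hp2 with i2 | i2
      · exact Or.inl (Or.inr ⟨hp', i1, i2⟩)
      · exact Or.inr (Or.inl ⟨hp', i1, i2⟩)
      · exact Or.inr (Or.inr ⟨hp', i1, i2⟩)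
      · exact Or.inl (Or.inl ⟨hp', i1, i2⟩)
    · rintro ((hp | hp) | (hp | hp)) <;> exact hp.1
  have i1 : IntegrableOn G (S ∩ A1) := hint.mono_set inter_subset_left
  have i2 : IntegrableOn G (S ∩ A2) := hint.mono_set inter_subset_left
  have i3 : IntegrableOn G (S ∩ A3) := hint.mono_set inter_subset_left
  have i4 : IntegrableOn G (S ∩ A4) := hint.mono_set inter_subset_left
  have d12 : Disjoint (S ∩ A1) (S ∩ A2) := by
    rw [Set.disjoint_left]
    rintro p ⟨-, h1, -⟩ ⟨-, h2, -⟩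
    linarith
  have d34 : Disjoint (S ∩ A3) (S ∩ A4) := by
    rw [Set.disjoint_left]
    rintro p ⟨-, h1, -⟩ ⟨-, h2, -⟩
    linarith
  have dd : Disjoint (S ∩ A1 ∪ S ∩ A2) (S ∩ A3 ∪ S ∩ A4) := by
    rw [Set.disjoint_left]
    rintro p (⟨-, h1, h2⟩ | ⟨-, h1, h2⟩) (⟨-, h3, h4⟩ | ⟨-, h3, h4⟩) <;> linarith
  rw [L, R1, R2, setIntegral_congr_set hD,
    setIntegral_union dd ((mS.inter mA3).union (mS.inter mA4)) (i1.union i2) (i3.union i4),
    setIntegral_union d12 (mS.inter mA2) i1 i2, setIntegral_union d34 (mS.inter mA4) i3 i4,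
    E2, E4]
  ring

end Pool.Agent.QS
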