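import Pool.Agent.Lib_helper54.QS.MPGEx
import Pool.Agent.Lib_helper19.QS.Pair

/-!
# MP_859019, QS: block MPG0, the statement
-/

set_option autoImplicit false

open scoped BigOperators ComplexOrder Kronecker MatrixOrder Topology
open MeasureTheory Set Matrix Filter

namespace Pool.Agent.QB

open Pool.Agent.RC Pool.Agent.LDK Pool.Agent.LDK.DUAL Pool.Agent.Lib_helper19.QS

/-- boundary values of the scalar letter -/
theorem bvOne {p : ℝ} (hp : 0 < p) : BVone p := by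
  have h1 : (1 : Matrix Unit Unit ℂ).PosSemidef := PosSemidef.one
  have t1 : tp p (1 : Matrix Unit Unit ℂ) = 1 := by
    have := trF_unit (fun x => x ^ p) 1
    rw [Complex.ofReal_one, one_smul, Real.one_rpow] at this
    exact this
  have hm : (1 / 2 : ℝ) ^ p ≤ 1 :=
    Real.rpow_le_one (by norm_num) (by norm_num) hp.le
  have hz : (0 : ℝ) ^ p = 0 := Real.zero_rpow hp.ne'
  refine ⟨fun γ hγ => ?_, fun γ hγ => ?_, fun a ha => ?_, fun a ha => ?_⟩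
  · rw [Hp_orth hp le_rfl (by norm_num) hγ.1 hγ.2 (by ring) h1 h1, t1, hz]
    simpa using hm
  · rw [Hp_orth hp zero_le_one (by norm_num) hγ.1 hγ.2 (by ring) h1 h1, t1]
    simpa [hz] using hm
  · rw [Hp_orth hp ha.1 (by linarith [ha.2]) le_rfl zero_le_one (by ring) h1 h1, t1]
    have n1 : 0 ≤ a ^ p := Real.rpow_nonneg ha.1 p
    have n2 : 0 ≤ (1 - a) ^ p := Real.rpow_nonneg (by linarith [ha.2]) p
    rcases le_total (1 / 2) a with h | h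
    · have := Real.rpow_le_rpow (by norm_num) h hp.le
      linarith
    · have := Real.rpow_le_rpow (by norm_num) (show (1 / 2 : ℝ) ≤ 1 - a by linarith) hp.le
      linarith
  · rw [Hp_par hp ha.1 (by linarith [ha.2]) h1 h1]
    have e : (a : ℂ) • (1 : Matrix Unit Unit ℂ) + ((1 - a : ℝ) : ℂ) • 1 = 1 := by
      rw [← add_smul]
      push_cast
      rw [add_sub_cancel, one_smul]
    rw [e, t1]
    exact hm

/-- the operator block along the three curves of `Hp` -/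
def OPCurves (p : ℝ) : Prop :=
  ∀ (κ : Type) [Fintype κ] [DecidableEq κ] (S T : Matrix κ κ ℂ), S.PosDef → T.PosDef →
    ∀ a γ : ℝ, 0 < a → a < 1 → 0 < γ → γ < 1 → ∃ D1 D2 D3 : ℝ,
      C2at (fun x => Hp p (a * (1 + x)) ((1 - a) * (1 - x)) (γ / (1 - x ^ 2)) S T) D1 ∧
      C2at (fun x => Hp p (a * (1 + x)) ((1 - a) * (1 + x)) (γ / (1 + x) ^ 2) S T) D2 ∧
      C2at (fun y => Hp p a (1 - a) (γ + y / (a * (1 - a))) S T) D3 ∧
      0 ≤ D2 - D1 - 4 * (a * (1 - a)) * (γ * (a * (1 - a))) * D3 ∧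
      (S * T = T * S → D2 - D1 - 4 * (a * (1 - a)) * (γ * (a * (1 - a))) * D3 = 0)

theorem opHyp {p : ℝ} (h : OPCurves p) : OpHyp p := by
  intro κ _ _ S T hS hT a ha γ hγ
  obtain ⟨D1, D2, D3, c1, c2, c3, h1, h2⟩ := h κ S T hS hT a γ ha.1 ha.2 hγ.1 hγ.2
  refine ⟨_, h1, h2, opV_Hp ha hγ (fun α β γ h0 h1 h2 h3 r hr => ?_) c1 c2 c3 rfl⟩
  exact Hp_hom hr h0 h1 h2 h3 hS.posSemidef hT.posSemidef

/-- **MPG0** -/
theorem mpgStmt {p : ℝ} (hp : 3 < p) (h : OPCurves p) (J : Type) [Fintype J] (κ : J → Type)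
    [∀ j, Fintype (κ j)] [∀ j, DecidableEq (κ j)] (S T : ∀ j, Matrix (κ j) (κ j) ℂ)
    (c : J → ℝ) (c0 : ℝ) (hS : ∀ j, (S j).PosSemidef) (hT : ∀ j, (T j).PosSemidef)
    (hc : ∀ j, 0 ≤ c j ∨ S j * T j = T j * S j) (Φ : ℝ → ℝ → ℝ)
    (hΦ : ∀ a γ, Φ a γ = ∑ j, c j * Hp p a (1 - a) γ (S j) (T j) +
      c0 * ((1 - γ) ^ p * (a ^ p + (1 - a) ^ p)))
    (h00 : ∀ γ ∈ Icc (0 : ℝ) 1, 0 ≤ Φ 0 γ) (h01 : ∀ γ ∈ Icc (0 : ℝ) 1, 0 ≤ Φ 1 γ)
    (h10 : ∀ a ∈ Icc (0 : ℝ) 1, 0 ≤ Φ a 0) (h11 : ∀ a ∈ Icc (0 : ℝ) 1, 0 ≤ Φ a 1) :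
    ∀ a ∈ Icc (0 : ℝ) 1, ∀ γ ∈ Icc (0 : ℝ) 1, 0 ≤ Φ a γ := by
  have e : ∀ a γ, Φ a γ = Comb p S T c c0 0 a γ := by
    intro a γ
    rw [hΦ]
    unfold Comb EE
    rw [zero_mul, add_zero]
  simp only [e] at h00 h01 h10 h11 ⊢
  exact mpg_psd (by linarith) (opHyp h) (exHyp p) (bvOne (by linarith)) hS hT hc h00 h01 h10 h11

/-- helper19's form -/
theorem mpg0 (h : ∀ p : ℝ, 3 < p → OPCurves p) : Pool.Agent.Lib_helper19.QS.MPG0 := by
  intro p hp J _ κ _ _ S T c c0 hS hT hc Φ hΦ h00 h01 h10 h11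
  exact mpgStmt hp (h p hp) J κ S T c c0 hS hT hc Φ hΦ h00 h01 h10 h11

end Pool.Agent.QB
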