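import Pool.Agent.Lib_helper69.QB.Defs
import Pool.Agent.Lib_helper92.RC.Trf

/-!
# MP_859019, QS: block MPG0, the maximum principle for linear combinations
-/

set_option autoImplicit false

open scoped BigOperators ComplexOrder Kronecker MatrixOrder Topology
open MeasureTheory Set Matrix Filter

namespace Pool.Agent.QB

open Pool.Agent.RC Pool.Agent.LDK

/-- the value of the operator at a point -/
def OpV (p : ℝ) (f : ℝ → ℝ → ℝ) (a γ v : ℝ) : Prop :=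
  ∃ D1 D2 D3 : ℝ,
    C2at (fun x => (1 + (2 * a - 1) * x) ^ p *
      f (a * (1 + x) / (1 + (2 * a - 1) * x)) (γ / (1 - x ^ 2))) D1 ∧
    C2at (fun x => (1 + x) ^ p * f a (γ / (1 + x) ^ 2)) D2 ∧
    C2at (fun y => f a (γ + y / (a * (1 - a)))) D3 ∧
    D2 - D1 - 4 * (a * (1 - a)) * (γ * (a * (1 - a))) * D3 = v

section OpV

variable {p a γ : ℝ} {f g : ℝ → ℝ → ℝ} {v w : ℝ}

theorem OpV.add (hf : OpV p f a γ v) (hg : OpV p g a γ w) :
    OpV p (fun a γ => f a γ + g a γ) a γ (v + w) := by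
  obtain ⟨D1, D2, D3, a1, a2, a3, a4⟩ := hf
  obtain ⟨E1, E2, E3, b1, b2, b3, b4⟩ := hg
  refine ⟨D1 + E1, D2 + E2, D3 + E3, ?_, ?_, a3.add b3, ?_⟩
  · exact (a1.add b1).congr (Eventually.of_forall fun x => (mul_add _ _ _).symm)
  · exact (a2.add b2).congr (Eventually.of_forall fun x => (mul_add _ _ _).symm)
  · rw [← a4, ← b4]; ring

theorem OpV.const_mul (c : ℝ) (hf : OpV p f a γ v) :
    OpV p (fun a γ => c * f a γ) a γ (c * v) := by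
  obtain ⟨D1, D2, D3, a1, a2, a3, a4⟩ := hf
  refine ⟨c * D1, c * D2, c * D3, ?_, ?_, a3.const_mul c, ?_⟩
  · exact (a1.const_mul c).congr (Eventually.of_forall fun x => mul_left_comm _ _ _)
  · exact (a2.const_mul c).congr (Eventually.of_forall fun x => mul_left_comm _ _ _)
  · rw [← a4]; ring

theorem OpV.sum {J : Type} [Fintype J] {f : J → ℝ → ℝ → ℝ} {v : J → ℝ}
    (h : ∀ j, OpV p (f j) a γ (v j)) : OpV p (fun a γ => ∑ j, f j a γ) a γ (∑ j, v j) := by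
  choose D1 D2 D3 a1 a2 a3 a4 using h
  refine ⟨∑ j, D1 j, ∑ j, D2 j, ∑ j, D3 j, ?_, ?_, C2at.sum Finset.univ fun j _ => a3 j, ?_⟩
  · exact (C2at.sum Finset.univ fun j _ => a1 j).congr
      (Eventually.of_forall fun x => (Finset.mul_sum _ _ _).symm)
  · exact (C2at.sum Finset.univ fun j _ => a2 j).congr
      (Eventually.of_forall fun x => (Finset.mul_sum _ _ _).symm)
  · rw [Finset.mul_sum, ← Finset.sum_sub_distrib, ← Finset.sum_sub_distrib]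
    exact Finset.sum_congr rfl fun j _ => a4 j

/-- the maximum principle in this language -/
theorem mp_opV (hp : 1 < p) {ψ : ℝ → ℝ → ℝ}
    (hc : ContinuousOn (fun q : ℝ × ℝ => ψ q.1 q.2) (Icc (0 : ℝ) 1 ×ˢ Icc (0 : ℝ) 1))
    (h00 : ∀ γ ∈ Icc (0 : ℝ) 1, 0 ≤ ψ 0 γ) (h01 : ∀ γ ∈ Icc (0 : ℝ) 1, 0 ≤ ψ 1 γ)
    (h10 : ∀ a ∈ Icc (0 : ℝ) 1, 0 ≤ ψ a 0) (h11 : ∀ a ∈ Icc (0 : ℝ) 1, 0 ≤ ψ a 1)
    (hop : ∀ a ∈ Ioo (0 : ℝ) 1, ∀ γ ∈ Ioo (0 : ℝ) 1, ∃ v, 0 ≤ v ∧ OpV p ψ a γ v) :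
    ∀ a ∈ Icc (0 : ℝ) 1, ∀ γ ∈ Icc (0 : ℝ) 1, 0 ≤ ψ a γ := by
  refine mp_abs hp ψ hc h00 h01 h10 h11 fun a ha γ hγ => ?_
  obtain ⟨v, hv, D1, D2, D3, a1, a2, a3, a4⟩ := hop a ha γ hγ
  exact ⟨D1, D2, D3, a1, a2, a3, by rw [a4]; exact hv⟩

end OpV

/-! ### continuity -/

theorem continuous_trF {X : Type*} [TopologicalSpace X] [FirstCountableTopology X]
    {ι : Type} [Fintype ι] [DecidableEq ι] {f : ℝ → ℝ} (hf : Continuous f)
    {M : X → Matrix ι ι ℂ} (hM : Continuous M) (h : ∀ x, (M x).IsHermitian) :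
    Continuous fun x => trF f (M x) := by
  rw [continuous_iff_continuousAt]
  intro x
  refine tendsto_of_seq_tendsto fun u hu => ?_
  exact tendsto_trF f hf _ _ (fun j => h (u j)) (h x) ((hM.tendsto x).comp hu)

section Mt

variable {κ : Type}

lemma E1_herm : (E1 : Matrix (Fin 2) (Fin 2) ℂ)ᴴ = E1 := by
  ext i j
  fin_cases i <;> fin_cases j <;> simp [E1, conjTranspose_apply]

lemma E2_herm (γ : ℝ) : (E2 γ)ᴴ = E2 γ := by
  ext i j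
  fin_cases i <;> fin_cases j <;> simp [E2, conjTranspose_apply]

theorem Mt_herm {S T : Matrix κ κ ℂ} (hS : S.IsHermitian) (hT : T.IsHermitian) (α β γ : ℝ) :
    (Mt α β γ S T).IsHermitian := by
  unfold Mt
  show (_)ᴴ = _
  rw [conjTranspose_add, conjTranspose_smul, conjTranspose_smul, conjTranspose_kronecker,
    conjTranspose_kronecker, E1_herm, E2_herm, hS.eq, hT.eq]
  simp

theorem continuous_Mt [DecidableEq κ] (S T : Matrix κ κ ℂ) :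
    Continuous fun q : ℝ × ℝ × ℝ => Mt q.2.1 (1 - q.2.1) q.2.2
      (S + (q.1 : ℂ) • 1) (T + (q.1 : ℂ) • 1) := by
  refine continuous_matrix fun i j => ?_
  obtain ⟨i, k⟩ := i
  obtain ⟨j, l⟩ := j
  simp only [Mt, Matrix.add_apply, Matrix.smul_apply, kroneckerMap_apply, smul_eq_mul]
  fin_cases i <;> fin_cases j <;> simp [E1, E2] <;> fun_prop

theorem continuous_Hp [Fintype κ] [DecidableEq κ] {p : ℝ} (hp : 0 ≤ p) {S T : Matrix κ κ ℂ} (hS : S.IsHermitian)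
    (hT : T.IsHermitian) :
    Continuous fun q : ℝ × ℝ × ℝ => Hp p q.2.1 (1 - q.2.1) q.2.2
      (S + (q.1 : ℂ) • 1) (T + (q.1 : ℂ) • 1) := by
  have hh : ∀ (M : Matrix κ κ ℂ) (r : ℝ), M.IsHermitian → (M + (r : ℂ) • 1).IsHermitian := by
    intro M r hM
    show (_)ᴴ = _
    rw [conjTranspose_add, conjTranspose_smul, conjTranspose_one, hM.eq]
    simp
  exact continuous_trF (continuous_id.rpow_const fun x => Or.inr hp) (continuous_Mt S T)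
    fun q => Mt_herm (hh S _ hS) (hh T _ hT) _ _ _

/-- the explicit part -/
noncomputable def EE (p a γ : ℝ) : ℝ := (1 - γ) ^ p * (a ^ p + (1 - a) ^ p)

theorem continuous_EE {p : ℝ} (hp : 0 ≤ p) : Continuous fun q : ℝ × ℝ => EE p q.1 q.2 := by
  unfold EE
  have h1 : Continuous fun q : ℝ × ℝ => (1 - q.2) ^ p :=
    (continuous_const.sub continuous_snd).rpow_const fun x => Or.inr hp
  have h2 : Continuous fun q : ℝ × ℝ => q.1 ^ p :=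
    continuous_fst.rpow_const fun x => Or.inr hp
  have h3 : Continuous fun q : ℝ × ℝ => (1 - q.1) ^ p :=
    (continuous_const.sub continuous_fst).rpow_const fun x => Or.inr hp
  exact h1.mul (h2.add h3)

end Mt

/-! ### the letters -/

section letters

variable {κ : Type} [Fintype κ] [DecidableEq κ]

/-- homogeneity turns the curves of `Hp` into the curves of the maximum principle -/
theorem opV_Hp {p a γ v D1 D2 D3 : ℝ} {S T : Matrix κ κ ℂ} (ha : a ∈ Ioo (0 : ℝ) 1)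
    (hγ : γ ∈ Ioo (0 : ℝ) 1)
    (hom : ∀ α β γ : ℝ, 0 ≤ α → 0 ≤ β → 0 ≤ γ → γ ≤ 1 → ∀ r : ℝ, 0 ≤ r →
      Hp p (r * α) (r * β) γ S T = r ^ p * Hp p α β γ S T)
    (h1 : C2at (fun x => Hp p (a * (1 + x)) ((1 - a) * (1 - x)) (γ / (1 - x ^ 2)) S T) D1)
    (h2 : C2at (fun x => Hp p (a * (1 + x)) ((1 - a) * (1 + x)) (γ / (1 + x) ^ 2) S T) D2)
    (h3 : C2at (fun y => Hp p a (1 - a) (γ + y / (a * (1 - a))) S T) D3)
    (hv : D2 - D1 - 4 * (a * (1 - a)) * (γ * (a * (1 - a))) * D3 = v) :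
    OpV p (fun a γ => Hp p a (1 - a) γ S T) a γ v := by
  refine ⟨D1, D2, D3, h1.congr ?_, h2.congr ?_, h3, hv⟩
  · have hN : ContinuousAt (fun x : ℝ => 1 + (2 * a - 1) * x) 0 := by fun_prop
    have e1 : ∀ᶠ x in 𝓝 (0 : ℝ), 0 < 1 + (2 * a - 1) * x :=
      hN.eventually (Ioi_mem_nhds (by simp))
    have e2 : ∀ᶠ x in 𝓝 (0 : ℝ), γ / (1 - x ^ 2) ∈ Ioo (0 : ℝ) 1 := by
      have : ContinuousAt (fun x : ℝ => γ / (1 - x ^ 2)) 0 := by
        refine ContinuousAt.div (by fun_prop) (by fun_prop) (by simp)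
      exact this.eventually (Ioo_mem_nhds (by simpa using hγ.1) (by simpa using hγ.2))
    have e3 : ∀ᶠ x in 𝓝 (0 : ℝ), x ∈ Ioo (-1 : ℝ) 1 := Ioo_mem_nhds (by norm_num) (by norm_num)
    filter_upwards [e1, e2, e3] with x hx1 hx2 hx3
    have k1 : (1 + (2 * a - 1) * x) * (a * (1 + x) / (1 + (2 * a - 1) * x)) = a * (1 + x) := by
      field_simp
    have k2 : (1 + (2 * a - 1) * x) * (1 - a * (1 + x) / (1 + (2 * a - 1) * x)) =
        (1 - a) * (1 - x) := by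
      rw [mul_sub, k1]; ring
    have k3 : 0 ≤ a * (1 + x) / (1 + (2 * a - 1) * x) :=
      div_nonneg (mul_nonneg ha.1.le (by linarith [hx3.1])) hx1.le
    have k4 : 0 ≤ 1 - a * (1 + x) / (1 + (2 * a - 1) * x) := by
      have h5 : 0 ≤ (1 + (2 * a - 1) * x) * (1 - a * (1 + x) / (1 + (2 * a - 1) * x)) := by
        rw [k2]
        exact mul_nonneg (by linarith [ha.2]) (by linarith [hx3.2])
      exact nonneg_of_mul_nonneg_right h5 hx1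
    have k5 := hom _ _ _ k3 k4 hx2.1.le hx2.2.le _ hx1.le
    rw [k1, k2] at k5
    exact k5
  · have e2 : ∀ᶠ x in 𝓝 (0 : ℝ), γ / (1 + x) ^ 2 ∈ Ioo (0 : ℝ) 1 := by
      have : ContinuousAt (fun x : ℝ => γ / (1 + x) ^ 2) 0 := by
        refine ContinuousAt.div (by fun_prop) (by fun_prop) (by simp)
      exact this.eventually (Ioo_mem_nhds (by simpa using hγ.1) (by simpa using hγ.2))
    have e3 : ∀ᶠ x in 𝓝 (0 : ℝ), x ∈ Ioo (-1 : ℝ) 1 := Ioo_mem_nhds (by norm_num) (by norm_num)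
    filter_upwards [e2, e3] with x hx2 hx3
    have k5 := hom a (1 - a) (γ / (1 + x) ^ 2) ha.1.le (by linarith [ha.2]) hx2.1.le hx2.2.le
      (1 + x) (by linarith [hx3.1])
    rw [mul_comm (1 + x) a, mul_comm (1 + x) (1 - a)] at k5
    exact k5

end letters

/-! ### the maximum principle for positive definite letters -/

/-- the general combination -/
noncomputable def Comb {J : Type} [Fintype J] {κ : J → Type} [∀ j, Fintype (κ j)]
    [∀ j, DecidableEq (κ j)] (p : ℝ) (S T : ∀ j, Matrix (κ j) (κ j) ℂ) (c : J → ℝ) (c0 c1 : ℝ)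
    (a γ : ℝ) : ℝ :=
  (∑ j, c j * Hp p a (1 - a) γ (S j) (T j)) + c0 * EE p a γ +
    c1 * Hp p a (1 - a) γ (1 : Matrix Unit Unit ℂ) 1

/-- the operator inequality for the letters -/
def OpHyp (p : ℝ) : Prop :=
  ∀ (κ : Type) [Fintype κ] [DecidableEq κ] (S T : Matrix κ κ ℂ), S.PosDef → T.PosDef →
    ∀ a ∈ Ioo (0 : ℝ) 1, ∀ γ ∈ Ioo (0 : ℝ) 1, ∃ v, 0 ≤ v ∧ (S * T = T * S → v = 0) ∧
      OpV p (fun a γ => Hp p a (1 - a) γ S T) a γ v

/-- the explicit part is in the kernel -/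
def ExHyp (p : ℝ) : Prop :=
  ∀ a ∈ Ioo (0 : ℝ) 1, ∀ γ ∈ Ioo (0 : ℝ) 1, OpV p (EE p) a γ 0

section main

variable {J : Type} [Fintype J] {κ : J → Type} [∀ j, Fintype (κ j)] [∀ j, DecidableEq (κ j)]
  {p : ℝ} {S T : ∀ j, Matrix (κ j) (κ j) ℂ} {c : J → ℝ} {c0 c1 : ℝ}

lemma add_zero_smul {ι : Type} [DecidableEq ι] (M : Matrix ι ι ℂ) :
    M + ((0 : ℝ) : ℂ) • (1 : Matrix ι ι ℂ) = M := by simp

theorem continuous_Hp0 {ι : Type} [Fintype ι] [DecidableEq ι] (hp : 0 ≤ p)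
    {S T : Matrix ι ι ℂ} (hS : S.IsHermitian) (hT : T.IsHermitian) :
    Continuous fun q : ℝ × ℝ => Hp p q.1 (1 - q.1) q.2 S T := by
  have h1 : Continuous fun q : ℝ × ℝ => ((0, q.1, q.2) : ℝ × ℝ × ℝ) := by fun_prop
  have h2 := (continuous_Hp hp hS hT).comp h1
  have e : ((fun q : ℝ × ℝ × ℝ => Hp p q.2.1 (1 - q.2.1) q.2.2
      (S + (q.1 : ℂ) • 1) (T + (q.1 : ℂ) • 1)) ∘ fun q : ℝ × ℝ => ((0, q.1, q.2) : ℝ × ℝ × ℝ)) =
      fun q : ℝ × ℝ => Hp p q.1 (1 - q.1) q.2 S T := by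
    funext q
    show Hp p q.1 (1 - q.1) q.2 (S + ((0 : ℝ) : ℂ) • 1) (T + ((0 : ℝ) : ℂ) • 1) = _
    rw [add_zero_smul, add_zero_smul]
  rwa [e] at h2

theorem mpg_pos (hp : 1 < p) (hOP : OpHyp p) (hEX : ExHyp p) (hS : ∀ j, (S j).PosDef)
    (hT : ∀ j, (T j).PosDef) (hc : ∀ j, 0 ≤ c j ∨ S j * T j = T j * S j)
    (h00 : ∀ γ ∈ Icc (0 : ℝ) 1, 0 ≤ Comb p S T c c0 c1 0 γ)
    (h01 : ∀ γ ∈ Icc (0 : ℝ) 1, 0 ≤ Comb p S T c c0 c1 1 γ)
    (h10 : ∀ a ∈ Icc (0 : ℝ) 1, 0 ≤ Comb p S T c c0 c1 a 0)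
    (h11 : ∀ a ∈ Icc (0 : ℝ) 1, 0 ≤ Comb p S T c c0 c1 a 1) :
    ∀ a ∈ Icc (0 : ℝ) 1, ∀ γ ∈ Icc (0 : ℝ) 1, 0 ≤ Comb p S T c c0 c1 a γ := by
  have hp0 : 0 ≤ p := by linarith
  refine mp_opV hp ?_ h00 h01 h10 h11 fun a ha γ hγ => ?_
  · refine Continuous.continuousOn ?_
    unfold Comb
    refine ((continuous_finsetSum _ fun j _ => ?_).add (continuous_const.mul
      (continuous_EE hp0))).add (continuous_const.mul (continuous_Hp0 hp0 ?_ ?_))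
    · exact continuous_const.mul (continuous_Hp0 hp0 (hS j).1 (hT j).1)
    · exact isHermitian_one
    · exact isHermitian_one
  · have h1 : ∀ j, ∃ v, 0 ≤ c j * v ∧
        OpV p (fun a γ => Hp p a (1 - a) γ (S j) (T j)) a γ v := by
      intro j
      obtain ⟨v, hv, hv0, h⟩ := hOP (κ j) (S j) (T j) (hS j) (hT j) a ha γ hγ
      refine ⟨v, ?_, h⟩
      rcases hc j with h2 | h2
      · exact mul_nonneg h2 hv
      · rw [hv0 h2, mul_zero]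
    choose v hv h using h1
    obtain ⟨w, -, hw0, hw⟩ := hOP Unit 1 1 PosDef.one PosDef.one a ha γ hγ
    rw [hw0 rfl] at hw
    refine ⟨(∑ j, c j * v j) + c0 * 0 + c1 * 0, ?_, ?_⟩
    · rw [mul_zero, mul_zero, add_zero, add_zero]
      exact Finset.sum_nonneg fun j _ => hv j
    · exact ((OpV.sum fun j => (h j).const_mul (c j)).add ((hEX a ha γ hγ).const_mul c0)).add
        (hw.const_mul c1)

/-- `f (r • 1)` -/
lemma trF_unit (f : ℝ → ℝ) (r : ℝ) : trF f ((r : ℂ) • (1 : Matrix Unit Unit ℂ)) = f r := by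
  have := TRF.trF_conj f (U := (1 : Matrix Unit Unit ℂ)) (by simp) (fun _ => r)
  rw [one_mul, conjTranspose_one, mul_one] at this
  have e : Matrix.diagonal (fun _ : Unit => (r : ℂ)) = (r : ℂ) • (1 : Matrix Unit Unit ℂ) := by
    ext i j
    simp
  rw [e] at this
  rw [this]
  simp

/-- boundary values of the scalar letter -/
structure BVone (p : ℝ) : Prop where
  b0 : ∀ γ ∈ Icc (0 : ℝ) 1, (1 / 2 : ℝ) ^ p ≤ Hp p 0 (1 - 0) γ (1 : Matrix Unit Unit ℂ) 1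
  b1 : ∀ γ ∈ Icc (0 : ℝ) 1, (1 / 2 : ℝ) ^ p ≤ Hp p 1 (1 - 1) γ (1 : Matrix Unit Unit ℂ) 1
  g0 : ∀ a ∈ Icc (0 : ℝ) 1, (1 / 2 : ℝ) ^ p ≤ Hp p a (1 - a) 0 (1 : Matrix Unit Unit ℂ) 1
  g1 : ∀ a ∈ Icc (0 : ℝ) 1, (1 / 2 : ℝ) ^ p ≤ Hp p a (1 - a) 1 (1 : Matrix Unit Unit ℂ) 1

theorem mpg_psd (hp : 1 < p) (hOP : OpHyp p) (hEX : ExHyp p) (hBV : BVone p)
    (hS : ∀ j, (S j).PosSemidef)
    (hT : ∀ j, (T j).PosSemidef) (hc : ∀ j, 0 ≤ c j ∨ S j * T j = T j * S j)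
    (h00 : ∀ γ ∈ Icc (0 : ℝ) 1, 0 ≤ Comb p S T c c0 0 0 γ)
    (h01 : ∀ γ ∈ Icc (0 : ℝ) 1, 0 ≤ Comb p S T c c0 0 1 γ)
    (h10 : ∀ a ∈ Icc (0 : ℝ) 1, 0 ≤ Comb p S T c c0 0 a 0)
    (h11 : ∀ a ∈ Icc (0 : ℝ) 1, 0 ≤ Comb p S T c c0 0 a 1) :
    ∀ a ∈ Icc (0 : ℝ) 1, ∀ γ ∈ Icc (0 : ℝ) 1, 0 ≤ Comb p S T c c0 0 a γ := by
  have hp0 : 0 ≤ p := by linarith
  intro a₀ ha₀ γ₀ hγ₀
  by_contra hneg
  push Not at hneg
  -- the family
  set F : ℝ × ℝ × ℝ → ℝ := fun q => (∑ j, c j * Hp p q.2.1 (1 - q.2.1) q.2.2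
    (S j + (q.1 : ℂ) • 1) (T j + (q.1 : ℂ) • 1)) + c0 * EE p q.2.1 q.2.2 with hF
  have hFc : Continuous F := by
    refine (continuous_finsetSum _ fun j _ => ?_).add (continuous_const.mul ?_)
    · exact continuous_const.mul (continuous_Hp hp0 (hS j).1 (hT j).1)
    · exact (continuous_EE hp0).comp continuous_snd
  have hF0 : ∀ a γ : ℝ, F (0, a, γ) = Comb p S T c c0 0 a γ := by
    intro a γ
    show (∑ j, c j * Hp p a (1 - a) γ (S j + ((0 : ℝ) : ℂ) • 1) (T j + ((0 : ℝ) : ℂ) • 1)) +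
      c0 * EE p a γ = _
    unfold Comb
    rw [zero_mul, add_zero]
    simp only [add_zero_smul]
  have hFe : ∀ e c1 a γ : ℝ, Comb p (fun j => S j + (e : ℂ) • 1) (fun j => T j + (e : ℂ) • 1)
      c c0 c1 a γ = F (e, a, γ) + c1 * Hp p a (1 - a) γ (1 : Matrix Unit Unit ℂ) 1 := by
    intro e c1 a γ
    rfl
  set δ := -Comb p S T c c0 0 a₀ γ₀ with hδ
  have hδ0 : 0 < δ := by rw [hδ]; linarith
  set m : ℝ := (1 / 2 : ℝ) ^ p with hm
  have hm0 : 0 < m := Real.rpow_pos_of_pos (by norm_num) p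
  set H := |Hp p a₀ (1 - a₀) γ₀ (1 : Matrix Unit Unit ℂ) 1| with hH
  have hH0 : 0 ≤ H := abs_nonneg _
  set η := δ / (2 * (1 + H / m)) with hη
  have hden : 0 < 2 * (1 + H / m) := by positivity
  have hη0 : 0 < η := div_pos hδ0 hden
  have hηe : η + η / m * H = δ / 2 := by
    have : η * (2 * (1 + H / m)) = δ := div_mul_cancel₀ _ hden.ne'
    have h2 : η + η / m * H = η * (2 * (1 + H / m)) / 2 := by ring
    rw [h2, this]
  -- uniform closeness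
  have hK : IsCompact (Icc (0 : ℝ) 1 ×ˢ Icc (0 : ℝ) 1) := isCompact_Icc.prod isCompact_Icc
  have hclose : ∀ᶠ e in 𝓝 (0 : ℝ), ∀ q ∈ Icc (0 : ℝ) 1 ×ˢ Icc (0 : ℝ) 1,
      |F (e, q) - F (0, q)| < η := by
    refine hK.eventually_forall_of_forall_eventually (x₀ := (0 : ℝ))
      (P := fun e q => |F (e, q) - F (0, q)| < η) fun q _ => ?_
    have hc1 : Continuous fun z : ℝ × (ℝ × ℝ) => |F (z.1, z.2) - F (0, z.2)| :=
      ((hFc.comp (by fun_prop : Continuous fun z : ℝ × (ℝ × ℝ) => ((z.1, z.2) : ℝ × ℝ × ℝ))).sub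
        (hFc.comp (by fun_prop : Continuous fun z : ℝ × (ℝ × ℝ) =>
          ((0, z.2) : ℝ × ℝ × ℝ)))).abs
    refine (hc1.tendsto (0, q)).eventually_lt_const ?_
    simpa using hη0
  obtain ⟨e, he0, hcl⟩ : ∃ e : ℝ, 0 < e ∧ ∀ q ∈ Icc (0 : ℝ) 1 ×ˢ Icc (0 : ℝ) 1,
      |F (e, q) - F (0, q)| < η := by
    have h1 := (hclose.filter_mono (nhdsWithin_le_nhds (s := Ioi 0))).and
      (self_mem_nhdsWithin (a := (0 : ℝ)) (s := Ioi 0))
    obtain ⟨e, h2, h3⟩ := h1.exists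
    exact ⟨e, h3, h2⟩
  have hpd : ∀ {ι : Type} [Fintype ι] [DecidableEq ι] (M : Matrix ι ι ℂ), M.PosSemidef →
      (M + (e : ℂ) • 1).PosDef := fun M hM =>
    PosDef.posSemidef_add hM (PosDef.one.smul (by exact_mod_cast he0))
  have hbd : ∀ a ∈ Icc (0 : ℝ) 1, ∀ γ ∈ Icc (0 : ℝ) 1, 0 ≤ Comb p S T c c0 0 a γ →
      m ≤ Hp p a (1 - a) γ (1 : Matrix Unit Unit ℂ) 1 →
      0 ≤ Comb p (fun j => S j + (e : ℂ) • 1) (fun j => T j + (e : ℂ) • 1) c c0 (η / m) a γ := by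
    intro a ha γ hγ h1 h2
    rw [hFe]
    have h3 := (abs_lt.mp (hcl (a, γ) ⟨ha, hγ⟩)).1
    rw [hF0] at h3
    have h4 : η ≤ η / m * Hp p a (1 - a) γ (1 : Matrix Unit Unit ℂ) 1 := by
      calc η = η / m * m := (div_mul_cancel₀ _ hm0.ne').symm
        _ ≤ _ := mul_le_mul_of_nonneg_left h2 (div_pos hη0 hm0).le
    linarith
  have z0 : (0 : ℝ) ∈ Icc (0 : ℝ) 1 := ⟨le_rfl, zero_le_one⟩
  have z1 : (1 : ℝ) ∈ Icc (0 : ℝ) 1 := ⟨zero_le_one, le_rfl⟩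
  have key := mpg_pos hp hOP hEX (S := fun j => S j + (e : ℂ) • 1)
    (T := fun j => T j + (e : ℂ) • 1) (c := c) (c0 := c0) (c1 := η / m)
    (fun j => hpd _ (hS j)) (fun j => hpd _ (hT j))
    (fun j => (hc j).imp id fun h => by
      simp only [add_mul, mul_add, smul_mul_assoc, mul_smul_comm, one_mul, mul_one, h, smul_add]
      abel)
    (fun γ hγ => hbd 0 z0 γ hγ (h00 γ hγ) (hBV.b0 γ hγ))
    (fun γ hγ => hbd 1 z1 γ hγ (h01 γ hγ) (hBV.b1 γ hγ))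
    (fun a ha => hbd a ha 0 z0 (h10 a ha) (hBV.g0 a ha))
    (fun a ha => hbd a ha 1 z1 (h11 a ha) (hBV.g1 a ha)) a₀ ha₀ γ₀ hγ₀
  rw [hFe] at key
  have h3 := (abs_lt.mp (hcl (a₀, γ₀) ⟨ha₀, hγ₀⟩)).2
  rw [hF0] at h3
  have h4 : η / m * Hp p a₀ (1 - a₀) γ₀ (1 : Matrix Unit Unit ℂ) 1 ≤ η / m * H :=
    mul_le_mul_of_nonneg_left (le_abs_self _) (div_pos hη0 hm0).le
  have h5 : Comb p S T c c0 0 a₀ γ₀ = -δ := by rw [hδ]; ring
  rw [h5] at h3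
  linarith

end main

end Pool.Agent.QB
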