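import Pool.Agent.Lib_helper54.QS.MPG

/-!
# MP_859019, QS: block MPG0, the explicit part
-/

set_option autoImplicit false

open scoped BigOperators ComplexOrder Kronecker MatrixOrder Topology
open MeasureTheory Set Matrix Filter

namespace Pool.Agent.QB

open Pool.Agent.RC Pool.Agent.LDK

theorem C2at.of_rpow (p : ℝ) {u u' : ℝ → ℝ} {u0 u1 d : ℝ} (hu0 : u 0 = u0) (hu1 : u' 0 = u1)
    (hpos : 0 < u0) (h1 : ∀ᶠ x in 𝓝 (0 : ℝ), HasDerivAt u (u' x) x) (h2 : HasDerivAt u' d 0) :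
    C2at (fun x => u x ^ p) (p * (p - 1) * u0 ^ (p - 2) * u1 ^ 2 + p * u0 ^ (p - 1) * d) := by
  have hc : ContinuousAt u 0 := h1.self_of_nhds.continuousAt
  have hp : ∀ᶠ x in 𝓝 (0 : ℝ), 0 < u x := by
    have h3 : Tendsto u (𝓝 0) (𝓝 (u 0)) := hc
    exact h3.eventually (Ioi_mem_nhds (by rw [hu0]; exact hpos))
  refine ⟨fun x => u' x * p * u x ^ (p - 1), ?_, ?_⟩
  · filter_upwards [h1, hp] with x hx hx0
    exact hx.rpow_const (Or.inl hx0.ne')
  · have k1 : HasDerivAt (fun x => u x ^ (p - 1)) (u' 0 * (p - 1) * u 0 ^ (p - 1 - 1)) 0 :=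
      h1.self_of_nhds.rpow_const (Or.inl (by rw [hu0]; exact hpos.ne'))
    have k2 := (h2.mul_const p).mul k1
    refine k2.congr_deriv ?_
    rw [hu0, hu1, show p - 1 - 1 = p - 2 by ring]
    ring

/-- curves of the form `1 + e x - γ / (1 + f x)` -/
theorem C2at.curve (p : ℝ) (e f γ : ℝ) (hγ : γ < 1) :
    C2at (fun x => (1 + e * x - γ / (1 + f * x)) ^ p)
      (p * (p - 1) * (1 - γ) ^ (p - 2) * (e + γ * f) ^ 2 +
        p * (1 - γ) ^ (p - 1) * (-(2 * γ * f ^ 2))) := by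
  have hN : ContinuousAt (fun x : ℝ => 1 + f * x) 0 := by fun_prop
  have hpos : ∀ᶠ x in 𝓝 (0 : ℝ), 0 < 1 + f * x := hN.eventually (Ioi_mem_nhds (by simp))
  refine C2at.of_rpow p (u := fun x => 1 + e * x - γ / (1 + f * x))
    (u' := fun x => e + γ * f / (1 + f * x) ^ 2) (by simp) (by simp) (by linarith) ?_ ?_
  · filter_upwards [hpos] with x hx
    have h1 : HasDerivAt (fun x : ℝ => 1 + e * x) e x := by
      simpa using ((hasDerivAt_id x).const_mul e).const_add 1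
    have h2 : HasDerivAt (fun x : ℝ => 1 + f * x) f x := by
      simpa using ((hasDerivAt_id x).const_mul f).const_add 1
    have h3 := (hasDerivAt_const x γ).div h2 hx.ne'
    refine (h1.sub h3).congr_deriv ?_
    ring
  · have h2 : HasDerivAt (fun x : ℝ => 1 + f * x) f 0 := by
      simpa using ((hasDerivAt_id (0 : ℝ)).const_mul f).const_add 1
    have h3 := (hasDerivAt_const (0 : ℝ) (γ * f)).div (h2.fun_pow 2) (by simp)
    refine (h3.const_add e).congr_deriv ?_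
    simp
    ring

/-- the explicit part is in the kernel of the operator -/
theorem exHyp (p : ℝ) : ExHyp p := by
  intro a ha γ hγ
  set b := 1 - a with hb
  have hb0 : 0 < b := by rw [hb]; linarith [ha.2]
  have ha0 : 0 < a := ha.1
  have hab : 0 < a * b := mul_pos ha0 hb0
  have hg : 0 < 1 - γ := by linarith [hγ.2]
  have eγ1 : ∀ᶠ x in 𝓝 (0 : ℝ), γ / (1 - x ^ 2) ∈ Ioo (0 : ℝ) 1 := by
    have : ContinuousAt (fun x : ℝ => γ / (1 - x ^ 2)) 0 := by
      refine ContinuousAt.div (by fun_prop) (by fun_prop) (by simp)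
    exact this.eventually (Ioo_mem_nhds (by simpa using hγ.1) (by simpa using hγ.2))
  have eγ2 : ∀ᶠ x in 𝓝 (0 : ℝ), γ / (1 + x) ^ 2 ∈ Ioo (0 : ℝ) 1 := by
    have : ContinuousAt (fun x : ℝ => γ / (1 + x) ^ 2) 0 := by
      refine ContinuousAt.div (by fun_prop) (by fun_prop) (by simp)
    exact this.eventually (Ioo_mem_nhds (by simpa using hγ.1) (by simpa using hγ.2))
  have e3 : ∀ᶠ x in 𝓝 (0 : ℝ), x ∈ Ioo (-1 : ℝ) 1 := Ioo_mem_nhds (by norm_num) (by norm_num)
  have hN : ContinuousAt (fun x : ℝ => 1 + (2 * a - 1) * x) 0 := by fun_prop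
  have e1 : ∀ᶠ x in 𝓝 (0 : ℝ), 0 < 1 + (2 * a - 1) * x :=
    hN.eventually (Ioi_mem_nhds (by simp))
  have c1 := ((C2at.curve p 1 (-1) γ hγ.2).const_mul (a ^ p)).add
    ((C2at.curve p (-1) 1 γ hγ.2).const_mul (b ^ p))
  have c2 := (C2at.curve p 1 1 γ hγ.2).const_mul (a ^ p + b ^ p)
  have c3 := (C2at.of_rpow p (u := fun y => 1 - (γ + y / (a * b)))
    (u' := fun _ => -(1 / (a * b))) (u0 := 1 - γ) (by simp) rfl hg
    (Eventually.of_forall fun y => by
      have h1 : HasDerivAt (fun y : ℝ => γ + y / (a * b)) (1 / (a * b)) y :=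
        ((hasDerivAt_id y).div_const (a * b)).const_add γ
      exact h1.const_sub 1) (hasDerivAt_const 0 _)).const_mul (a ^ p + b ^ p)
  refine ⟨_, _, _, c1.congr ?_, c2.congr ?_, c3.congr ?_, ?_⟩
  · filter_upwards [eγ1, e3, e1] with x hx hx3 hx1
    have p1 : 0 < 1 + x := by linarith [hx3.1]
    have p2 : 0 < 1 - x := by linarith [hx3.2]
    have p3 : 0 < 1 - x ^ 2 := by nlinarith
    have hw : 0 < 1 - γ / (1 - x ^ 2) := by linarith [hx.2]
    unfold EE
    obtain ⟨N, hNe⟩ : ∃ N, N = 1 + (2 * a - 1) * x := ⟨_, rfl⟩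
    rw [← hNe] at hx1 ⊢
    have k1 : 1 - a * (1 + x) / N = b * (1 - x) / N := by
      rw [eq_div_iff hx1.ne', sub_mul, div_mul_cancel₀ _ hx1.ne', hNe, hb]
      ring
    have h4 : 1 - x ^ 2 = (1 - x) * (1 + x) := by ring
    have q1 : 1 + 1 * x - γ / (1 + -1 * x) = (1 + x) * (1 - γ / (1 - x ^ 2)) := by
      have : 1 + -1 * x = 1 - x := by ring
      rw [this, h4]
      field_simp
    have q2 : 1 + -1 * x - γ / (1 + 1 * x) = (1 - x) * (1 - γ / (1 - x ^ 2)) := by
      have : 1 + -1 * x = 1 - x := by ring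
      rw [this, one_mul, h4]
      field_simp
    have r1 : N ^ p * (a * (1 + x) / N) ^ p = a ^ p * (1 + x) ^ p := by
      rw [← Real.mul_rpow hx1.le (by positivity), mul_div_cancel₀ _ hx1.ne',
        Real.mul_rpow ha0.le p1.le]
    have r2 : N ^ p * (b * (1 - x) / N) ^ p = b ^ p * (1 - x) ^ p := by
      rw [← Real.mul_rpow hx1.le (by positivity), mul_div_cancel₀ _ hx1.ne',
        Real.mul_rpow hb0.le p2.le]
    rw [k1, q1, q2, Real.mul_rpow p1.le hw.le, Real.mul_rpow p2.le hw.le]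
    linear_combination (-(1 - γ / (1 - x ^ 2)) ^ p) * r1 - ((1 - γ / (1 - x ^ 2)) ^ p) * r2
  · filter_upwards [eγ2, e3] with x hx hx3
    have p1 : 0 < 1 + x := by linarith [hx3.1]
    have hw : 0 < 1 - γ / (1 + x) ^ 2 := by linarith [hx.2]
    unfold EE
    rw [← mul_assoc, ← Real.mul_rpow p1.le hw.le, mul_comm]
    congr 2
    rw [one_mul]
    field_simp
  · filter_upwards with y
    unfold EE
    rw [mul_comm]
  · have hab' : a * b ≠ 0 := hab.ne'
    field_simp
    ring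

end Pool.Agent.QB
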